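import Pool.Agent.Helper40.AC.Stmts

/-! Project AC, packet P04: homotopy invariance of the characteristic number. -/

open scoped ContDiff Topology Matrix Kronecker
open MeasureTheory Pool.Agent.Helper40.AC

namespace Pool.Agent.Helper53.AC

noncomputable section

/-- Smooth functions on `ℝ × ℝ⁴`, periodic in the second variable, as a subalgebra. -/
def SSs : Subalgebra ℂ (ℝ × Ang → ℂ) where
  carrier := {f | ContDiff ℝ ∞ f ∧ ∀ (t : ℝ) (x : Ang) (k : Fin 4),
    f (t, x + Pi.single k (2 * Real.pi)) = f (t, x)}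
  mul_mem' := by
    rintro f g ⟨hf, hf'⟩ ⟨hg, hg'⟩
    exact ⟨hf.mul hg, fun t x k => by simp [hf' t x k, hg' t x k]⟩
  add_mem' := by
    rintro f g ⟨hf, hf'⟩ ⟨hg, hg'⟩
    exact ⟨hf.add hg, fun t x k => by simp [hf' t x k, hg' t x k]⟩
  algebraMap_mem' := by
    intro r
    exact ⟨contDiff_const, fun t x k => rfl⟩


/-- The direction vectors. -/
def dir : Option (Fin 4) → ℝ × Ang
  | none => (1, 0)
  | some j => (0, Pi.single j 1)

/-- Derivation of a function. -/
def dF (i : Option (Fin 4)) (f : ℝ × Ang → ℂ) : ℝ × Ang → ℂ := fun q => fderiv ℝ f q (dir i)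

theorem dF_smooth (i : Option (Fin 4)) {f : ℝ × Ang → ℂ} (hf : ContDiff ℝ ∞ f) :
    ContDiff ℝ ∞ (dF i f) :=
  (hf.fderiv_right (m := ∞) (by norm_cast)).clm_apply contDiff_const

theorem dF_per (i : Option (Fin 4)) {f : ℝ × Ang → ℂ}
    (hf : ∀ (t : ℝ) (x : Ang) (k : Fin 4), f (t, x + Pi.single k (2 * Real.pi)) = f (t, x))
    (t : ℝ) (x : Ang) (k : Fin 4) :
    dF i f (t, x + Pi.single k (2 * Real.pi)) = dF i f (t, x) := by
  have h3 : (fun y => f (y + (0, Pi.single k (2 * Real.pi)))) = f := by
    funext y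
    obtain ⟨s, y⟩ := y
    simpa using hf s y k
  have h4 : fderiv ℝ f ((t, x) + (0, Pi.single k (2 * Real.pi))) = fderiv ℝ f (t, x) := by
    rw [← fderiv_comp_add_right (f := f) ((0, Pi.single k (2 * Real.pi)) : ℝ × Ang), h3]
  have h5 : ((t, x) : ℝ × Ang) + (0, Pi.single k (2 * Real.pi)) =
      (t, x + Pi.single k (2 * Real.pi)) := by simp
  rw [h5] at h4
  simp only [dF, h4]

/-- The derivations of the ring of smooth families. -/
def DD (i : Option (Fin 4)) (f : SSs) : SSs :=
  ⟨dF i f.1, dF_smooth i f.2.1, dF_per i f.2.2⟩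

theorem DD_fn (i : Option (Fin 4)) (f : SSs) (q : ℝ × Ang) : (DD i f).1 q = dF i f.1 q := rfl

theorem DD_add (i : Option (Fin 4)) (f g : SSs) : DD i (f + g) = DD i f + DD i g := by
  apply Subtype.ext
  funext q
  have hf : DifferentiableAt ℝ f.1 q := (f.2.1.differentiable (by simp)).differentiableAt
  have hg : DifferentiableAt ℝ g.1 q := (g.2.1.differentiable (by simp)).differentiableAt
  have h := fderiv_add hf hg
  change fderiv ℝ (f.1 + g.1) q (dir i) = fderiv ℝ f.1 q (dir i) + fderiv ℝ g.1 q (dir i)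
  rw [h]
  rfl

theorem DD_mul (i : Option (Fin 4)) (f g : SSs) : DD i (f * g) = DD i f * g + f * DD i g := by
  apply Subtype.ext
  funext q
  have hf : DifferentiableAt ℝ f.1 q := (f.2.1.differentiable (by simp)).differentiableAt
  have hg : DifferentiableAt ℝ g.1 q := (g.2.1.differentiable (by simp)).differentiableAt
  have h := fderiv_mul hf hg
  change fderiv ℝ (f.1 * g.1) q (dir i) =
    fderiv ℝ f.1 q (dir i) * g.1 q + f.1 q * fderiv ℝ g.1 q (dir i)
  rw [h]
  simp only [add_apply, smul_apply, smul_eq_mul]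
  ring

theorem DD_comm (i j : Option (Fin 4)) (f : SSs) : DD i (DD j f) = DD j (DD i f) := by
  apply Subtype.ext
  funext q
  have h2 : ContDiffAt ℝ 2 f.1 q := (f.2.1.of_le (by norm_cast)).contDiffAt
  have hs : IsSymmSndFDerivAt ℝ f.1 q := h2.isSymmSndFDerivAt (by simp)
  have hd : DifferentiableAt ℝ (fderiv ℝ f.1) q :=
    ((f.2.1.fderiv_right (m := ∞) (by norm_cast)).differentiable (by simp)).differentiableAt
  have key : ∀ a b : ℝ × Ang, fderiv ℝ (fun y => fderiv ℝ f.1 y b) q a =
      fderiv ℝ (fderiv ℝ f.1) q a b := by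
    intro a b
    rw [fderiv_clm_apply hd (differentiableAt_const b)]
    simp
  change fderiv ℝ (fun y => fderiv ℝ f.1 y (dir j)) q (dir i) =
    fderiv ℝ (fun y => fderiv ℝ f.1 y (dir i)) q (dir j)
  rw [key, key]
  exact hs _ _

/-- The slice at time `t`. -/
def sl (t : ℝ) : SSs →+* BB where
  toFun f := BB.mk (fun x => f.1 (t, x)) (f.2.1.comp (contDiff_prodMk_right t))
    (fun x k => f.2.2 t x k)
  map_one' := rfl
  map_mul' _ _ := rfl
  map_zero' := rfl
  map_add' _ _ := rfl

theorem sl_fn (t : ℝ) (f : SSs) (x : Ang) : (sl t f).fn x = f.1 (t, x) := rfl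

theorem sl_DD (t : ℝ) (j : Fin 4) (f : SSs) : sl t (DD (some j) f) = pd j (sl t f) := by
  apply BB.ext
  intro x
  have hf : DifferentiableAt ℝ f.1 (t, x) := (f.2.1.differentiable (by simp)).differentiableAt
  have h1 : HasFDerivAt (fun y : Ang => ((t, y) : ℝ × Ang))
      (ContinuousLinearMap.inr ℝ ℝ Ang) x := hasFDerivAt_prodMk_right t x
  have h2 := (hf.hasFDerivAt.comp x h1).fderiv
  change fderiv ℝ f.1 (t, x) (0, Pi.single j 1) =
    fderiv ℝ (f.1 ∘ fun y : Ang => ((t, y) : ℝ × Ang)) x (Pi.single j 1)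
  rw [h2]
  simp

theorem map_Fc {S S' ι ι' n : Type} [CommRing S] [CommRing S'] [Fintype n] (D : ι → S → S)
    (D' : ι' → S' → S') (φ : S →+* S') (m : ι' → ι) (h : ∀ j x, φ (D (m j) x) = D' j (φ x))
    (e : Matrix n n S) (j k : ι') :
    (Fc D e (m j) (m k)).map φ = Fc D' (e.map φ) j k := by
  have h1 : ∀ j, (e.map (D (m j))).map φ = (e.map φ).map (D' j) := by
    intro j
    ext a b
    simp [h]
  simp only [Fc, Matrix.map_mul, Matrix.map_sub φ (map_sub φ), h1]

theorem map_om {S S' ι ι' n : Type} [CommRing S] [CommRing S'] [Fintype n] (D : ι → S → S)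
    (D' : ι' → S' → S') (φ : S →+* S') (m : ι' → ι) (h : ∀ j x, φ (D (m j) x) = D' j (φ x))
    (e : Matrix n n S) (a b c d : ι') :
    φ (om D e (m a) (m b) (m c) (m d)) = om D' (e.map φ) a b c d := by
  have ht : ∀ A : Matrix n n S, φ A.trace = (A.map φ).trace := by
    intro A
    simp [Matrix.trace]
  simp only [om, map_mul, map_add, map_sub, map_ofNat, ht, Matrix.map_mul, map_Fc D D' φ m h]

theorem cube_compact : IsCompact cube := isCompact_Icc

/-- Differentiation under the integral sign. -/
theorem hasDerivAt_int (f : SSs) (t : ℝ) :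
    HasDerivAt (fun s => ∫ x in cube, (sl s f).fn x)
      (∫ x in cube, (sl t (DD none f)).fn x) t := by
  have hc : IsCompact (Set.Icc (t - 1) (t + 1) ×ˢ cube) := isCompact_Icc.prod cube_compact
  have hcont : Continuous (DD none f).1 := (DD none f).2.1.continuous
  obtain ⟨C, hC⟩ := hc.exists_bound_of_continuousOn hcont.continuousOn
  have hfin : IsFiniteMeasure (volume.restrict cube) :=
    ⟨by rw [Measure.restrict_apply_univ]; exact cube_compact.measure_lt_top⟩
  have hball : Metric.ball t 1 ∈ 𝓝 t := Metric.ball_mem_nhds t one_pos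
  refine (hasDerivAt_integral_of_dominated_loc_of_deriv_le (μ := volume.restrict cube)
    (F := fun s x => (sl s f).fn x) (F' := fun s x => (sl s (DD none f)).fn x)
    (bound := fun _ => C) hball ?_ ?_ ?_ ?_ ?_ ?_).2
  · refine Filter.Eventually.of_forall fun s => ?_
    exact ((sl s f).smooth.continuous).aestronglyMeasurable
  · exact ((sl t f).smooth.continuous.continuousOn).integrableOn_compact cube_compact
  · exact ((sl t (DD none f)).smooth.continuous).aestronglyMeasurable
  · refine (ae_restrict_iff' cube_compact.measurableSet).2 (Filter.Eventually.of_forall ?_)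
    intro x hx s hs
    refine hC (s, x) ⟨?_, hx⟩
    rw [Real.ball_eq_Ioo] at hs
    exact ⟨hs.1.le, hs.2.le⟩
  · exact integrable_const C
  · refine Filter.Eventually.of_forall fun x s _ => ?_
    have hf : DifferentiableAt ℝ f.1 (s, x) := (f.2.1.differentiable (by simp)).differentiableAt
    have h1 : HasFDerivAt (fun r : ℝ => ((r, x) : ℝ × Ang))
        (ContinuousLinearMap.inl ℝ ℝ Ang) s := hasFDerivAt_prodMk_left s x
    have h2 := (hf.hasFDerivAt.comp s h1).hasDerivAt
    have h3 : (fderiv ℝ f.1 (s, x) ∘L ContinuousLinearMap.inl ℝ ℝ Ang) 1 =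
        (sl s (DD none f)).fn x := rfl
    rw [h3] at h2
    exact h2

theorem hom_ok (h1 : S_PD) (h2 : S_CLOSED) : S_HOM := by
  intro n _ _ e hsm hid
  obtain ⟨_, _, _, hint, _, hI⟩ := h1
  let E : Matrix n n SSs := Matrix.of fun i j =>
    ⟨fun q => (e q.1 i j).fn q.2, hsm i j, fun t x k => (e t i j).periodic x k⟩
  have hE : ∀ t, E.map (sl t) = e t := by
    intro t
    ext i j
    exact BB.ext fun x => rfl
  have hEE : E * E = E := by
    refine Matrix.ext fun i j => Subtype.ext (funext fun q => ?_)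
    have h3 : ((E * E).map (sl q.1)) i j = (E.map (sl q.1)) i j := by
      rw [Matrix.map_mul, hE, hid]
    have h4 := congrArg (fun b : BB => b.fn q.2) h3
    exact h4
  have hPhi : ∀ t, Phi (e t) =
      ∫ x in cube, (sl t (om DD E (some 0) (some 1) (some 2) (some 3))).fn x := by
    intro t
    rw [map_om DD pd (sl t) some (fun j x => sl_DD t j x) E 0 1 2 3, hE]
    rfl
  have hder : ∀ t, HasDerivAt (fun s => Phi (e s)) 0 t := by
    intro t
    have h3 := hasDerivAt_int (om DD E (some 0) (some 1) (some 2) (some 3)) t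
    have h4 := h2 DD DD_add DD_mul DD_comm E hEE none (some 0) (some 1) (some 2) (some 3)
    rw [h4] at h3
    have h5 : (∫ x in cube, (sl t (DD (some 0) (om DD E none (some 1) (some 2) (some 3)) -
        DD (some 1) (om DD E none (some 0) (some 2) (some 3)) +
        DD (some 2) (om DD E none (some 0) (some 1) (some 3)) -
        DD (some 3) (om DD E none (some 0) (some 1) (some 2)))).fn x) = 0 := by
      simp only [map_sub, map_add, sl_DD, BB.fn_sub, BB.fn_add]
      rw [integral_sub, integral_add, integral_sub, hint, hint, hint, hint]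
      · simp
      · exact hI _
      · exact hI _
      · exact (hI _).sub (hI _)
      · exact hI _
      · exact ((hI _).sub (hI _)).add (hI _)
      · exact hI _
    rw [h5] at h3
    have h6 : (fun s => Phi (e s)) =
        fun s => ∫ x in cube, (sl s (om DD E (some 0) (some 1) (some 2) (some 3))).fn x :=
      funext hPhi
    rw [h6]
    exact h3
  have hconst := is_const_of_deriv_eq_zero (f := fun s => Phi (e s))
    (fun t => (hder t).differentiableAt) (fun t => (hder t).deriv) 0 1
  exact hconst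

end

end Pool.Agent.Helper53.AC
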