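import Pool.Agent.Helper40.AC.Stmts

/-! Project AC, packet P22: smoothness of the normal gradients. -/

open scoped ContDiff Topology Matrix Kronecker
open Pool.Agent.Helper40.AC

namespace Pool.Agent.Helper53.AC

theorem coord_smooth (i : Idx) (z : Idx → ℝ) : ContDiffAt ℝ ∞ (fun y : Idx → ℝ => y i) z :=
  (contDiff_apply ℝ ℝ i).contDiffAt

theorem ofReal_smooth {f : (Idx → ℝ) → ℝ} {z : Idx → ℝ} (h : ContDiffAt ℝ ∞ f z) :
    ContDiffAt ℝ ∞ (fun y => (f y : ℂ)) z :=
  Complex.ofRealCLM.contDiff.contDiffAt.comp z h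

theorem psi_smooth (l : Fin 8) (z : Idx → ℝ) (hz : 1 + ww z 4 ≠ 0) :
    ContDiffAt ℝ ∞ (fun y : Idx → ℝ => Psi y l) z := by
  by_cases h : l.1 < 4
  · have h1 : (fun y : Idx → ℝ => Psi y l) =
        fun y => (y (Sum.inl ⟨l.1, h⟩) : ℂ) + (y (Sum.inr (Sum.inl ⟨l.1, h⟩)) : ℂ) * Complex.I := by
      funext y
      simp only [Psi, h, dif_pos, cc, ss]
    rw [h1]
    exact (ofReal_smooth (coord_smooth _ z)).add
      ((ofReal_smooth (coord_smooth _ z)).mul contDiffAt_const)
  · have h1 : (fun y : Idx → ℝ => Psi y l) =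
        fun y => ((y (Sum.inr (Sum.inr ⟨l.1 - 4, by omega⟩)) /
          (1 + y (Sum.inr (Sum.inr 4))) : ℝ) : ℂ) := by
      funext y
      simp only [Psi, h, ww]
      rfl
    rw [h1]
    refine ofReal_smooth ?_
    exact (coord_smooth _ z).div (contDiffAt_const.add (coord_smooth _ z)) hz

theorem gf_smooth (F : MvPolynomial (Fin 8) ℂ) (z : Idx → ℝ) (hz : 1 + ww z 4 ≠ 0) :
    ContDiffAt ℝ ∞ (GF F) z := by
  induction F using MvPolynomial.induction_on with
  | C a =>
    have h1 : GF (MvPolynomial.C a) = fun _ => a := by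
      funext y
      simp [GF]
    rw [h1]
    exact contDiffAt_const
  | add p q hp hq =>
    have h1 : GF (p + q) = fun y => GF p y + GF q y := by
      funext y
      simp [GF]
    rw [h1]
    exact hp.add hq
  | mul_X p l hp =>
    have h1 : GF (p * MvPolynomial.X l) = fun y => GF p y * Psi y l := by
      funext y
      simp [GF]
    rw [h1]
    exact hp.mul (psi_smooth l z hz)

theorem tk_smooth {Z : Set (Idx → ℝ)} (T : TData Z) : ContDiff ℝ ∞ T.K :=
  contDiff_pi.2 fun i => (T.Ksm i).1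

theorem tk_per {Z : Set (Idx → ℝ)} (T : TData Z) (x : Ang) (k : Fin 4) :
    T.K (x + Pi.single k (2 * Real.pi)) = T.K x :=
  funext fun i => (T.Ksm i).2 x k

theorem tk_ne {Z : Set (Idx → ℝ)} (T : TData Z) (x : Ang) : 1 + ww (T.K x) 4 ≠ 0 := by
  have := T.pos x
  linarith

theorem nusm_ok : S_NUSM := by
  intro Z T
  refine ⟨fun F i => ⟨?_, ?_⟩, fun l => ⟨?_, ?_⟩⟩
  · rw [contDiff_iff_contDiffAt]
    intro x
    have h1 : ContDiffAt ℝ ∞ (fun y => fderiv ℝ (GF F) (T.K y)) x := by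
      have h2 : ContDiffAt ℝ ∞ (fderiv ℝ (GF F)) (T.K x) :=
        (gf_smooth F (T.K x) (tk_ne T x)).fderiv_right (m := ∞) (by norm_cast)
      exact h2.comp x (tk_smooth T).contDiffAt
    have h3 : ∀ i', ContDiffAt ℝ ∞
        (fun y => (T.p y i i' : ℂ) * fderiv ℝ (GF F) (T.K y) (Pi.single i' 1)) x := by
      intro i'
      have h4 : ContDiffAt ℝ ∞ (fun y => (T.p y i i' : ℂ)) x :=
        Complex.ofRealCLM.contDiff.contDiffAt.comp x (T.psm i i').1.contDiffAt
      exact h4.mul (h1.clm_apply contDiffAt_const)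
    exact ContDiffAt.sum fun i' _ => h3 i'
  · intro x k
    simp only [nuF, tk_per, (T.psm _ _).2 x k]
  · rw [contDiff_iff_contDiffAt]
    intro x
    exact (psi_smooth l (T.K x) (tk_ne T x)).comp x (tk_smooth T).contDiffAt
  · intro x k
    simp only [tk_per]

end Pool.Agent.Helper53.AC
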